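import Pool.Agent.W207.PF.SpecB

set_option autoImplicit false

open Complex Filter Topology Set MeasureTheory
open scoped BigOperators

namespace Pool.Agent.W22.PF

open W207.PR (G P PP X ZT mz Npos)
open W207.PU (Neu)

lemma NA_swap (T a b : ℝ) : W201FW.NA T a b = W201FW.NA T (-b) (-a) := by
  classical
  unfold W201FW.NA
  rw [Finset.sum_comm]
  refine Finset.sum_congr rfl fun s _ => Finset.sum_congr rfl fun s' _ => ?_
  by_cases h : a ≤ s'.im - s.im ∧ s'.im - s.im ≤ b
  · have h2 : -b ≤ s.im - s'.im ∧ s.im - s'.im ≤ -a := ⟨by linarith [h.2], by linarith [h.1]⟩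
    rw [if_pos h, if_pos h2, mul_comm]
  · have h2 : ¬ (-b ≤ s.im - s'.im ∧ s.im - s'.im ≤ -a) := fun h3 =>
      h ⟨by linarith [h3.2], by linarith [h3.1]⟩
    rw [if_neg h, if_neg h2]

/-- windows which contain `0` -/
lemma NA_zero (T : ℝ) {a b : ℝ} (ha : a ≤ 0) (hb : 0 ≤ b) :
    W201FW.NA T a b = Neu T + Npos T (-a) + Npos T b := by
  classical
  have h1 : W201FW.NA T a b = ∑ s ∈ ZT T, ∑ s' ∈ ZT T,
      ((if s'.im = s.im then mz s * mz s' else 0) +
        (if 0 < s'.im - s.im ∧ s'.im - s.im ≤ -a then mz s' * mz s else 0) +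
        (if 0 < s.im - s'.im ∧ s.im - s'.im ≤ b then mz s * mz s' else 0)) := by
    unfold W201FW.NA
    refine Finset.sum_congr rfl fun s _ => Finset.sum_congr rfl fun s' _ => ?_
    rcases lt_trichotomy s.im s'.im with h | h | h
    · have e1 : ¬ s'.im = s.im := fun e => by linarith
      have e2 : ¬ (0 < s.im - s'.im ∧ s.im - s'.im ≤ b) := fun e => by linarith [e.1]
      rw [if_neg e1, if_neg e2, zero_add, add_zero]
      by_cases h2 : s'.im - s.im ≤ -a
      · rw [if_pos ⟨by linarith, by linarith⟩, if_pos ⟨by linarith, h2⟩, mul_comm]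
      · rw [if_neg fun h3 => h2 (by linarith [h3.1]), if_neg fun h3 => h2 h3.2]
    · have e2 : ¬ (0 < s.im - s'.im ∧ s.im - s'.im ≤ b) := fun e => by linarith [e.1]
      have e3 : ¬ (0 < s'.im - s.im ∧ s'.im - s.im ≤ -a) := fun e => by linarith [e.1]
      rw [if_pos h.symm, if_neg e2, if_neg e3, add_zero, add_zero,
        if_pos ⟨by linarith, by linarith⟩]
    · have e1 : ¬ s'.im = s.im := fun e => by linarith
      have e3 : ¬ (0 < s'.im - s.im ∧ s'.im - s.im ≤ -a) := fun e => by linarith [e.1]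
      rw [if_neg e1, if_neg e3, zero_add, zero_add]
      by_cases h2 : s.im - s'.im ≤ b
      · rw [if_pos ⟨by linarith, by linarith⟩, if_pos ⟨by linarith, h2⟩]
      · rw [if_neg fun h3 => h2 (by linarith [h3.2]), if_neg fun h3 => h2 h3.2]
  rw [h1, W207.PU.Neu_eq]
  unfold Npos
  simp only [Finset.sum_add_distrib]
  congr 1
  congr 1
  rw [Finset.sum_comm]

/-- windows beyond `0`, upper bound -/
lemma NA_le (T : ℝ) {a a' b : ℝ} (h : a' < a) (hab : a ≤ b) (h0 : 0 ≤ a') :
    W201FW.NA T a b + Npos T a' ≤ Npos T b := by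
  classical
  unfold W201FW.NA Npos
  rw [← Finset.sum_add_distrib]
  refine Finset.sum_le_sum fun s _ => ?_
  rw [← Finset.sum_add_distrib]
  refine Finset.sum_le_sum fun s' _ => ?_
  have hm : 0 ≤ mz s * mz s' := mul_nonneg (W207.PR.mz_nonneg _) (W207.PR.mz_nonneg _)
  by_cases h1 : a ≤ s.im - s'.im ∧ s.im - s'.im ≤ b
  · rw [if_pos h1, if_neg fun h3 => by linarith [h3.2, h1.1],
      if_pos ⟨by linarith [h1.1], h1.2⟩, add_zero]
  · rw [if_neg h1, zero_add]
    by_cases h2 : 0 < s.im - s'.im ∧ s.im - s'.im ≤ a'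
    · rw [if_pos h2, if_pos ⟨h2.1, by linarith [h2.2]⟩]
    · rw [if_neg h2]
      split_ifs
      · exact hm
      · exact le_rfl

/-- windows beyond `0`, lower bound -/
lemma NA_ge (T : ℝ) {a b : ℝ} : Npos T b ≤ W201FW.NA T a b + Npos T a := by
  classical
  unfold W201FW.NA Npos
  rw [← Finset.sum_add_distrib]
  refine Finset.sum_le_sum fun s _ => ?_
  rw [← Finset.sum_add_distrib]
  refine Finset.sum_le_sum fun s' _ => ?_
  have hm : 0 ≤ mz s * mz s' := mul_nonneg (W207.PR.mz_nonneg _) (W207.PR.mz_nonneg _)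
  by_cases h1 : 0 < s.im - s'.im ∧ s.im - s'.im ≤ b
  · rw [if_pos h1]
    rcases le_total a (s.im - s'.im) with h2 | h2
    · rw [if_pos ⟨h2, h1.2⟩]
      split_ifs <;> linarith
    · rw [if_pos (c := 0 < s.im - s'.im ∧ s.im - s'.im ≤ a) ⟨h1.1, h2⟩]
      split_ifs <;> linarith
  · rw [if_neg h1]
    split_ifs <;> linarith

lemma NA_sym (T u : ℝ) : W201FW.NA T (2 * Real.pi * (-u) / Real.log T)
    (2 * Real.pi * u / Real.log T) = H332B.N2 T (2 * Real.pi * u / Real.log T) := by
  classical
  unfold W201FW.NA H332B.N2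
  refine Finset.sum_congr rfl fun s _ => Finset.sum_congr rfl fun s' _ => ?_
  have e1 : 2 * Real.pi * (-u) / Real.log T = -(2 * Real.pi * u / Real.log T) := by ring
  rw [e1]
  simp only [abs_le]

lemma G_neg (u : ℝ) : G (-u) = -G u := by
  rw [W207.PR.G_eq, W207.PR.G_eq]
  have h1 : ∀ t, W207.PR.gi (-t) = W207.PR.gi t := by
    intro t
    unfold W207.PR.gi
    rw [mul_neg, Real.sin_neg, neg_div_neg_eq]
  have h2 := intervalIntegral.integral_comp_neg (a := 0) (b := u) W207.PR.gi
  simp only [h1, neg_zero] at h2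
  rw [h2, intervalIntegral.integral_symm]

lemma Npos_zero (T : ℝ) : Npos T 0 = 0 := by
  unfold Npos
  refine Finset.sum_eq_zero fun s _ => Finset.sum_eq_zero fun s' _ => ?_
  rw [if_neg fun h => by linarith [h.1, h.2]]

/-- the pairs with positive difference -/
lemma Npos_tendsto {l : Filter ℝ} (hl : l ≤ atTop) (h : PP l) {u : ℝ} (hu : 0 ≤ u) :
    Tendsto (fun T => Npos T (2 * Real.pi * u / Real.log T) / X T) l (𝓝 (G u)) := by
  rcases hu.eq_or_lt with rfl | hu
  · rw [W207.PR.G_zero]
    simp only [mul_zero, zero_div, Npos_zero]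
    exact tendsto_const_nhds
  · have h1 := ((h u hu).sub (W207.PU.PP_Neu hl h)).div_const 2
    have e : (1 + 2 * G u - 1) / 2 = G u := by ring
    rw [e] at h1
    refine h1.congr' ?_
    filter_upwards [hl (eventually_ge_atTop (10 : ℝ))] with T hT
    have hlog : 0 < Real.log T := Real.log_pos (by linarith)
    have hpi := Real.pi_pos
    unfold P
    rw [W207.PU.N2_splitU T (by positivity)]
    ring

theorem right {l : Filter ℝ} (hl : l ≤ atTop) (h : PP l) {α β : ℝ} (hα : 0 < α) (hab : α < β) :
    Tendsto (fun T => W201FW.NA T (2 * Real.pi * α / Real.log T)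
      (2 * Real.pi * β / Real.log T) / X T) l (𝓝 (G β - G α)) := by
  rw [Metric.tendsto_nhds]
  intro ε hε
  set α' : ℝ := α - min (α / 2) (ε / 2) with hα'
  have hm0 : 0 < min (α / 2) (ε / 2) := lt_min (by linarith) (by linarith)
  have hm1 : min (α / 2) (ε / 2) ≤ α / 2 := min_le_left _ _
  have hm2 : min (α / 2) (ε / 2) ≤ ε / 2 := min_le_right _ _
  have h0 : 0 < α' := by linarith
  have h1 : α' < α := by linarith
  have h2 : G α - G α' ≤ ε / 2 := (W207.PR.G_lip h1.le).trans (by linarith)
  have hβ := Npos_tendsto hl h (hα.trans hab).le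
  have t1 := hβ.sub (Npos_tendsto hl h hα.le)
  have t2 := hβ.sub (Npos_tendsto hl h h0.le)
  filter_upwards [t1.eventually (lt_mem_nhds (show G β - G α - ε < G β - G α by linarith)),
    t2.eventually (gt_mem_nhds (show G β - G α' < G β - G α' + ε / 2 by linarith)),
    hl (eventually_ge_atTop (10 : ℝ))] with T g1 g2 hT
  have hX := W207.PR.X_pos hT
  have hlog : 0 < Real.log T := Real.log_pos (by linarith)
  have hpi := Real.pi_pos
  have q1 : 2 * Real.pi * α' / Real.log T < 2 * Real.pi * α / Real.log T := by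
    apply div_lt_div_of_pos_right _ hlog
    nlinarith
  have q2 : 2 * Real.pi * α / Real.log T ≤ 2 * Real.pi * β / Real.log T := by
    apply div_le_div_of_nonneg_right _ hlog.le
    nlinarith
  have q3 := NA_le T q1 q2 (by positivity)
  have q4 := NA_ge T (a := 2 * Real.pi * α / Real.log T) (b := 2 * Real.pi * β / Real.log T)
  have q5 : W201FW.NA T (2 * Real.pi * α / Real.log T) (2 * Real.pi * β / Real.log T) / X T ≤
      Npos T (2 * Real.pi * β / Real.log T) / X T -
        Npos T (2 * Real.pi * α' / Real.log T) / X T := by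
    rw [← sub_div]
    exact div_le_div_of_nonneg_right (by linarith) hX.le
  have q6 : Npos T (2 * Real.pi * β / Real.log T) / X T -
      Npos T (2 * Real.pi * α / Real.log T) / X T ≤
      W201FW.NA T (2 * Real.pi * α / Real.log T) (2 * Real.pi * β / Real.log T) / X T := by
    rw [← sub_div]
    exact div_le_div_of_nonneg_right (by linarith) hX.le
  rw [Real.dist_eq, abs_lt]
  constructor <;> linarith

theorem br : W207.PF.S_BR := by
  intro l hl
  have hval : ∀ α β : ℝ, (∫ u in α..β, (1 - (Real.sin (Real.pi * u) / (Real.pi * u)) ^ 2)) =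
      G β - G α := fun α β => (W207.PR.G_sub α β).symm
  constructor
  · intro h α β hab
    rw [hval]
    by_cases h0 : α ≤ 0 ∧ 0 ≤ β
    · rw [if_pos h0]
      have t1 := ((W207.PU.PP_Neu hl h).add (Npos_tendsto hl h (u := -α) (by linarith [h0.1]))).add
        (Npos_tendsto hl h h0.2)
      rw [G_neg] at t1
      have e : 1 + -G α + G β = G β - G α + 1 := by ring
      rw [e] at t1
      refine t1.congr' ?_
      filter_upwards [hl (eventually_ge_atTop (10 : ℝ))] with T hT
      have hlog : 0 < Real.log T := Real.log_pos (by linarith)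
      have hpi := Real.pi_pos
      have q1 : 2 * Real.pi * α / Real.log T ≤ 0 := by
        apply div_nonpos_of_nonpos_of_nonneg _ hlog.le
        nlinarith [h0.1]
      have q2 : 0 ≤ 2 * Real.pi * β / Real.log T := by
        apply div_nonneg _ hlog.le
        nlinarith [h0.2]
      have e1 : 2 * Real.pi * (-α) / Real.log T = -(2 * Real.pi * α / Real.log T) := by ring
      rw [NA_zero T q1 q2, e1, add_div, add_div]
    · rw [if_neg h0, add_zero]
      rcases lt_or_ge 0 α with hα | hα
      · exact right hl h hα hab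
      · have hβ : β < 0 := by
          by_contra hcon
          exact h0 ⟨hα, not_lt.1 hcon⟩
        have t1 := right hl h (α := -β) (β := -α) (by linarith) (by linarith)
        rw [G_neg, G_neg] at t1
        have e : -G α - -G β = G β - G α := by ring
        rw [e] at t1
        refine t1.congr fun T => ?_
        rw [NA_swap T (2 * Real.pi * α / Real.log T)]
        congr 2 <;> ring
  · intro h u hu
    have t1 := h (-u) u (by linarith)
    rw [hval, if_pos ⟨by linarith, hu.le⟩, G_neg] at t1
    have e : G u - -G u + 1 = 1 + 2 * G u := by ring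
    rw [e] at t1
    refine t1.congr fun T => ?_
    rw [NA_sym]
    rfl

end Pool.Agent.W22.PF
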